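import Pool.Agent.H32Lab.System

set_option autoImplicit false

/-!
The 72-colouring without monochromatic nearly collinear triples of prescribed gaps.
-/

namespace H32Lab

open Finset

theorem arc {X0 X1 Y1 Y2 : ℝ} (h : 2 < (X0 - X1) + (Y2 - Y1)) (h' : (X0 - X1) + (Y2 - Y1) < 4)
    (hX : (6 : ℤ) ∣ ⌊X0⌋ - ⌊X1⌋) (hY : (6 : ℤ) ∣ ⌊Y2⌋ - ⌊Y1⌋) : False := by
  obtain ⟨p, hp⟩ := hX
  obtain ⟨r, hr⟩ := hY
  have a0 := Int.floor_le X0
  have a1 := Int.floor_le X1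
  have a2 := Int.floor_le Y1
  have a3 := Int.floor_le Y2
  have b0 := Int.lt_floor_add_one X0
  have b1 := Int.lt_floor_add_one X1
  have b2 := Int.lt_floor_add_one Y1
  have b3 := Int.lt_floor_add_one Y2
  have hp' : (⌊X0⌋ : ℝ) - ⌊X1⌋ = 6 * p := by exact_mod_cast hp
  have hr' : (⌊Y2⌋ : ℝ) - ⌊Y1⌋ = 6 * r := by exact_mod_cast hr
  have h1 : (0 : ℝ) < 6 * (p + r) := by linarith
  have h2 : (6 : ℝ) * (p + r) < 6 := by linarith
  have h3 : (0 : ℝ) < ((p + r : ℤ) : ℝ) := by push_cast; linarith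
  have h4 : ((p + r : ℤ) : ℝ) < 1 := by push_cast; linarith
  have h5 : 0 < p + r := by exact_mod_cast h3
  have h6 : p + r < 1 := by exact_mod_cast h4
  omega

theorem dvd_of_cast_eq {p r : ℤ} (h : (p : ZMod 6) = (r : ZMod 6)) : (6 : ℤ) ∣ p - r := by
  have h1 : ((p - r : ℤ) : ZMod 6) = 0 := by push_cast; rw [h, sub_self]
  exact (ZMod.intCast_zmod_eq_zero_iff_dvd (p - r) 6).mp h1

theorem exists_unit_colouring (n : ℕ) :
    ∃ κ : ℝ, 0 < κ ∧ ∀ a b : ℝ, 0 < a → 0 < b → a + b = 1 →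
      ∃ c : (Fin n → ℝ) → Fin 72, ∀ x1 u v : Fin n → ℝ, (∀ l, |u l| ≤ 2) → (∀ l, |v l| ≤ 2) →
        (∀ l, |u l - v l| ≤ κ) → 11 / 12 ≤ ∑ l, u l ^ 2 → ∑ l, u l ^ 2 ≤ 13 / 12 →
        11 / 12 ≤ ∑ l, v l ^ 2 → ∑ l, v l ^ 2 ≤ 13 / 12 →
        ¬ (c (fun l => x1 l + a * u l) = c x1 ∧ c (fun l => x1 l - b * v l) = c x1) := by
  classical
  obtain ⟨V, F, G, hG, hest⟩ := exists_potential n
  refine ⟨1 / (12 * (G + 1)), by positivity, ?_⟩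
  intro a b ha hb hab
  have hcard : Fintype.card (Bool × ZMod 6 × ZMod 6) = 72 := by
    simp [ZMod.card]
  let e : (Bool × ZMod 6 × ZMod 6) ≃ Fin 72 := Fintype.equivFinOfCardEq hcard
  refine ⟨fun x => e (decide (x ∈ V), ((⌊3 * F x / a⌋ : ℤ) : ZMod 6),
    ((⌊3 * F x / b⌋ : ℤ) : ZMod 6)), ?_⟩
  intro x1 u v hu hv hκ hu1 hu2 hv1 hv2 ⟨hc0, hc2⟩
  have h0 := e.injective hc0
  have h2 := e.injective hc2
  rw [Prod.mk.injEq, Prod.mk.injEq] at h0 h2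
  obtain ⟨m0, p0, _⟩ := h0
  obtain ⟨m2, _, r2⟩ := h2
  rw [decide_eq_decide] at m0 m2
  have est := hest x1 u v a b (1 / (12 * (G + 1))) ha hb hab (by positivity) hu hv hκ m0 m2
  have hGk : G * (1 / (12 * (G + 1))) ≤ 1 / 12 := by
    rw [mul_one_div, div_le_div_iff₀ (by positivity) (by norm_num)]
    linarith
  have hsum : ∑ i, (a * u i ^ 2 + b * v i ^ 2) = a * ∑ l, u l ^ 2 + b * ∑ l, v l ^ 2 := by
    rw [Finset.sum_add_distrib, Finset.mul_sum, Finset.mul_sum]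
  rw [hsum] at est
  set F0 := F (fun l => x1 l + a * u l) with hF0
  set F2 := F (fun l => x1 l - b * v l) with hF2
  have hlow : 11 / 12 ≤ a * ∑ l, u l ^ 2 + b * ∑ l, v l ^ 2 := by
    have e1 : a * (11 / 12) ≤ a * ∑ l, u l ^ 2 := mul_le_mul_of_nonneg_left hu1 ha.le
    have e2 : b * (11 / 12) ≤ b * ∑ l, v l ^ 2 := mul_le_mul_of_nonneg_left hv1 hb.le
    nlinarith
  have hupp : a * ∑ l, u l ^ 2 + b * ∑ l, v l ^ 2 ≤ 13 / 12 := by
    have e1 : a * ∑ l, u l ^ 2 ≤ a * (13 / 12) := mul_le_mul_of_nonneg_left hu2 ha.le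
    have e2 : b * ∑ l, v l ^ 2 ≤ b * (13 / 12) := mul_le_mul_of_nonneg_left hv2 hb.le
    nlinarith
  have est' := abs_le.mp est
  have hid : (3 * F0 / a - 3 * F x1 / a) + (3 * F2 / b - 3 * F x1 / b)
      = 3 * ((F0 - F x1) / a + (F2 - F x1) / b) := by ring
  refine arc (X0 := 3 * F0 / a) (X1 := 3 * F x1 / a) (Y1 := 3 * F x1 / b) (Y2 := 3 * F2 / b)
    ?_ ?_ (dvd_of_cast_eq p0) (dvd_of_cast_eq r2)
  · rw [hid]
    linarith [est'.1]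
  · rw [hid]
    linarith [est'.2]

end H32Lab
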