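import Pool.Agent.H32Lab.OneDim

set_option autoImplicit false

/-!
The function attached to one coordinate, and the set of bounded plates outside which it behaves like
`x i ^ 2`.
-/

namespace H32Lab

open Finset

variable {n : ℕ}

/-- product partition of unity at scale `L` -/
noncomputable def bet (L : ℝ) (j : Fin n → Bool) (x : Fin n → ℝ) : ℝ := ∏ l, gam L (j l) (x l)

theorem bet_nonneg (L : ℝ) (j : Fin n → Bool) (x : Fin n → ℝ) : 0 ≤ bet L j x :=
  Finset.prod_nonneg fun _ _ => gam_nonneg _ _ _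

theorem sum_bet (L : ℝ) (x : Fin n → ℝ) : ∑ j : Fin n → Bool, bet L j x = 1 := by
  unfold bet
  rw [← Fintype.prod_sum (fun l (p : Bool) => gam L p (x l))]
  simp [gam_add]

theorem gam_pos_of_bet_pos {L : ℝ} {j : Fin n → Bool} {x : Fin n → ℝ} (h : 0 < bet L j x)
    (l : Fin n) : 0 < gam L (j l) (x l) := by
  rcases (gam_nonneg L (j l) (x l)).lt_or_eq with h1 | h1
  · exact h1
  · exfalso
    have : bet L j x = 0 := Finset.prod_eq_zero (Finset.mem_univ l) h1.symm
    linarith

theorem prod_lip {ι : Type*} (s : Finset ι) (f g : ι → ℝ) (hf : ∀ i, 0 ≤ f i ∧ f i ≤ 1)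
    (hg : ∀ i, 0 ≤ g i ∧ g i ≤ 1) : |∏ i ∈ s, f i - ∏ i ∈ s, g i| ≤ ∑ i ∈ s, |f i - g i| := by
  classical
  induction s using Finset.induction_on with
  | empty => simp
  | insert a s ha ih =>
    rw [Finset.prod_insert ha, Finset.prod_insert ha, Finset.sum_insert ha]
    have h1 : f a * ∏ i ∈ s, f i - g a * ∏ i ∈ s, g i
        = (f a - g a) * ∏ i ∈ s, f i + g a * (∏ i ∈ s, f i - ∏ i ∈ s, g i) := by ring
    rw [h1]
    refine (abs_add_le _ _).trans ?_
    have h2 : |∏ i ∈ s, f i| ≤ 1 := by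
      rw [abs_of_nonneg (Finset.prod_nonneg fun i _ => (hf i).1)]
      exact Finset.prod_le_one (fun i _ => (hf i).1) (fun i _ => (hf i).2)
    have h3 : |g a| ≤ 1 := by
      rw [abs_of_nonneg (hg a).1]
      exact (hg a).2
    rw [abs_mul, abs_mul]
    have h4 := abs_nonneg (f a - g a)
    have h5 := abs_nonneg (∏ i ∈ s, f i - ∏ i ∈ s, g i)
    nlinarith

theorem bet_lip {L : ℝ} (hL : 0 < L) (j : Fin n → Bool) (x y : Fin n → ℝ) {d : ℝ}
    (hd : ∀ l, |x l - y l| ≤ d) : |bet L j x - bet L j y| ≤ n * (8 / L * d) := by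
  unfold bet
  refine (prod_lip univ _ _ (fun l => ⟨gam_nonneg _ _ _, gam_le_one _ _ _⟩)
    (fun l => ⟨gam_nonneg _ _ _, gam_le_one _ _ _⟩)).trans ?_
  have h1 : ∀ l ∈ (univ : Finset (Fin n)),
      |gam L (j l) (x l) - gam L (j l) (y l)| ≤ 8 / L * d := by
    intro l _
    refine (gam_lip hL _ _ _).trans ?_
    have := hd l
    gcongr
  refine (Finset.sum_le_sum h1).trans ?_
  simp

/-- the number of families -/
def J (n : ℕ) : ℕ := Fintype.card (Fin n → Bool)

theorem J_pos (n : ℕ) : 0 < J n := Fintype.card_pos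

/-- the offset of a family -/
noncomputable def off (j : Fin n → Bool) : ℕ := (Fintype.equivFin (Fin n → Bool) j : ℕ)

theorem off_lt (j : Fin n → Bool) : off j < J n := (Fintype.equivFin (Fin n → Bool) j).2

theorem off_inj {j j' : Fin n → Bool} (h : off j = off j') : j = j' :=
  (Fintype.equivFin (Fin n → Bool)).injective (Fin.ext h)

/-- the function attached to the coordinate `i` -/
noncomputable def psi (h L : ℝ) (i : Fin n) (x : Fin n → ℝ) : ℝ :=
  ∑ j : Fin n → Bool, bet L j x * q (J n * h) (x i - off j * h)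

/-- neighbourhood of the plates attached to the coordinate `i` -/
def plates (h L : ℝ) (i : Fin n) : Set (Fin n → ℝ) :=
  {x | ∃ j : Fin n → Bool, 0 < bet L j x ∧ ∃ N : ℤ, |x i - off j * h - N * (J n * h)| ≤ 2}

theorem psi_side {h L : ℝ} (hh : 0 < h) (i : Fin n) (x0 x1 : Fin n → ℝ)
    (h0 : x0 ∉ plates h L i) (hw : |x1 i - x0 i| ≤ 2) :
    psi h L i x0 - psi h L i x1
      = (x0 i - x1 i) * (∑ j : Fin n → Bool, bet L j x0 * slo (J n * h) (x1 i - off j * h))
        + (x0 i - x1 i) ^ 2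
        + ∑ j : Fin n → Bool, (bet L j x0 - bet L j x1) * q (J n * h) (x1 i - off j * h) := by
  have hH : 0 < (J n : ℝ) * h := by
    have := J_pos n
    positivity
  have key : ∀ j : Fin n → Bool,
      bet L j x0 * (q (J n * h) (x0 i - off j * h) - q (J n * h) (x1 i - off j * h))
      = bet L j x0 * ((x0 i - x1 i) * slo (J n * h) (x1 i - off j * h) + (x0 i - x1 i) ^ 2) := by
    intro j
    rcases (bet_nonneg L j x0).lt_or_eq with hb | hb
    · congr 1
      have hfar : ∀ N : ℤ, 2 < |x0 i - off j * h - N * (J n * h)| := by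
        intro N
        by_contra hcon
        exact h0 ⟨j, hb, N, not_lt.mp hcon⟩
      have hd : |(x1 i - off j * h) - (x0 i - off j * h)| ≤ 2 := by
        have : (x1 i - off j * h) - (x0 i - off j * h) = x1 i - x0 i := by ring
        rw [this]
        exact hw
      have hfl := floor_eq_of_far hH hfar hd
      rw [q_diff hfl]
      ring
    · rw [← hb]; ring
  have e1 : psi h L i x0 - psi h L i x1
      = ∑ j : Fin n → Bool,
          (bet L j x0 * (q (J n * h) (x0 i - off j * h) - q (J n * h) (x1 i - off j * h))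
           + (bet L j x0 - bet L j x1) * q (J n * h) (x1 i - off j * h)) := by
    unfold psi
    rw [← Finset.sum_sub_distrib]
    apply Finset.sum_congr rfl
    intro j _
    ring
  rw [e1, Finset.sum_add_distrib]
  congr 1
  rw [Finset.sum_congr rfl fun j _ => key j]
  have e2 : ∀ j : Fin n → Bool,
      bet L j x0 * ((x0 i - x1 i) * slo (J n * h) (x1 i - off j * h) + (x0 i - x1 i) ^ 2)
      = (x0 i - x1 i) * (bet L j x0 * slo (J n * h) (x1 i - off j * h))
        + bet L j x0 * (x0 i - x1 i) ^ 2 := by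
    intro j; ring
  rw [Finset.sum_congr rfl fun j _ => e2 j, Finset.sum_add_distrib, ← Finset.mul_sum,
    ← Finset.sum_mul, sum_bet, one_mul]

theorem sum_bet_sub_mul_le {L : ℝ} (hL : 0 < L) (x y : Fin n → ℝ) {d K : ℝ} (_hK : 0 ≤ K)
    (hd0 : 0 ≤ d) (hd : ∀ l, |x l - y l| ≤ d) (w : (Fin n → Bool) → ℝ) (hw : ∀ j, |w j| ≤ K) :
    |∑ j : Fin n → Bool, (bet L j x - bet L j y) * w j| ≤ J n * (n * (8 / L * d)) * K := by
  refine (Finset.abs_sum_le_sum_abs _ _).trans ?_
  have h1 : ∀ j ∈ (univ : Finset (Fin n → Bool)),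
      |(bet L j x - bet L j y) * w j| ≤ (n * (8 / L * d)) * K := by
    intro j _
    rw [abs_mul]
    have h2 := bet_lip hL j x y hd
    have h3 := hw j
    have h4 : 0 ≤ (n : ℝ) * (8 / L * d) := by positivity
    exact mul_le_mul h2 h3 (abs_nonneg _) h4
  refine (Finset.sum_le_sum h1).trans ?_
  rw [Finset.sum_const, Finset.card_univ, nsmul_eq_mul]
  have : (Fintype.card (Fin n → Bool) : ℝ) = (J n : ℝ) := rfl
  rw [this]
  apply le_of_eq
  ring

theorem psi_est {h L : ℝ} (hh : 0 < h) (hL : 0 < L) (i : Fin n) (x1 u v : Fin n → ℝ) {a b : ℝ}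
    (ha : 0 < a) (hb : 0 < b) (hab : a + b = 1) (hu : ∀ l, |u l| ≤ 2) (hv : ∀ l, |v l| ≤ 2)
    (h0 : (fun l => x1 l + a * u l) ∉ plates h L i)
    (h2 : (fun l => x1 l - b * v l) ∉ plates h L i) :
    |(psi h L i (fun l => x1 l + a * u l) - psi h L i x1) / a
      + (psi h L i (fun l => x1 l - b * v l) - psi h L i x1) / b
      - (a * u i ^ 2 + b * v i ^ 2)|
    ≤ J n * (n * (16 / L)) * (2 * (J n * h) ^ 2 + 2 * (J n * h)) + J n * h * |u i - v i| := by
  have hH : 0 < (J n : ℝ) * h := by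
    have := J_pos n
    positivity
  set H : ℝ := J n * h with hHdef
  set x0 : Fin n → ℝ := fun l => x1 l + a * u l with hx0
  set x2 : Fin n → ℝ := fun l => x1 l - b * v l with hx2
  have ha1 : a < 1 := by linarith
  have hb1 : b < 1 := by linarith
  have d01 : ∀ l, |x0 l - x1 l| ≤ 2 * a := by
    intro l
    have : x0 l - x1 l = a * u l := by simp [hx0]
    rw [this, abs_mul, abs_of_pos ha]
    have := hu l
    nlinarith
  have d21 : ∀ l, |x2 l - x1 l| ≤ 2 * b := by
    intro l
    have : x2 l - x1 l = - (b * v l) := by simp [hx2]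
    rw [this, abs_neg, abs_mul, abs_of_pos hb]
    have := hv l
    nlinarith
  have d02 : ∀ l, |x0 l - x2 l| ≤ 2 := by
    intro l
    have e : x0 l - x2 l = (x0 l - x1 l) - (x2 l - x1 l) := by ring
    rw [e]
    refine (abs_sub _ _).trans ?_
    have := d01 l
    have := d21 l
    linarith
  have s0 := psi_side (L := L) hh i x0 x1 h0 (by rw [abs_sub_comm]; linarith [d01 i])
  have s2 := psi_side (L := L) hh i x2 x1 h2 (by rw [abs_sub_comm]; linarith [d21 i])
  rw [s0, s2]
  have e0 : x0 i - x1 i = a * u i := by simp [hx0]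
  have e2 : x2 i - x1 i = - (b * v i) := by simp [hx2]
  rw [e0, e2]
  set S0 := ∑ j : Fin n → Bool, bet L j x0 * slo H (x1 i - off j * h) with hS0
  set S2 := ∑ j : Fin n → Bool, bet L j x2 * slo H (x1 i - off j * h) with hS2
  set R0 := ∑ j : Fin n → Bool, (bet L j x0 - bet L j x1) * q H (x1 i - off j * h) with hR0
  set R2 := ∑ j : Fin n → Bool, (bet L j x2 - bet L j x1) * q H (x1 i - off j * h) with hR2
  have bS0 : |S0| ≤ H := by
    rw [hS0]
    refine (Finset.abs_sum_le_sum_abs _ _).trans ?_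
    have : ∀ j ∈ (univ : Finset (Fin n → Bool)),
        |bet L j x0 * slo H (x1 i - off j * h)| ≤ bet L j x0 * H := by
      intro j _
      rw [abs_mul, abs_of_nonneg (bet_nonneg _ _ _)]
      exact mul_le_mul_of_nonneg_left (abs_slo_le hH _) (bet_nonneg _ _ _)
    refine (Finset.sum_le_sum this).trans ?_
    rw [← Finset.sum_mul, sum_bet, one_mul]
  have bS : |S0 - S2| ≤ J n * (n * (8 / L * 2)) * H := by
    have : S0 - S2 = ∑ j : Fin n → Bool, (bet L j x0 - bet L j x2) * slo H (x1 i - off j * h) := by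
      rw [hS0, hS2, ← Finset.sum_sub_distrib]
      apply Finset.sum_congr rfl
      intro j _; ring
    rw [this]
    exact sum_bet_sub_mul_le hL x0 x2 hH.le (by norm_num) d02 _ (fun j => abs_slo_le hH _)
  have bR0 : |R0| ≤ J n * (n * (8 / L * (2 * a))) * H ^ 2 :=
    sum_bet_sub_mul_le hL x0 x1 (by positivity) (by positivity) d01 _ (fun j => abs_q_le hH _)
  have bR2 : |R2| ≤ J n * (n * (8 / L * (2 * b))) * H ^ 2 :=
    sum_bet_sub_mul_le hL x2 x1 (by positivity) (by positivity) d21 _ (fun j => abs_q_le hH _)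
  have bR0' : |R0 / a| ≤ J n * (n * (16 / L)) * H ^ 2 := by
    rw [abs_div, abs_of_pos ha, div_le_iff₀ ha]
    refine bR0.trans (le_of_eq ?_)
    ring
  have bR2' : |R2 / b| ≤ J n * (n * (16 / L)) * H ^ 2 := by
    rw [abs_div, abs_of_pos hb, div_le_iff₀ hb]
    refine bR2.trans (le_of_eq ?_)
    ring
  have etot : (a * u i * S0 + (a * u i) ^ 2 + R0) / a + (-(b * v i) * S2 + (-(b * v i)) ^ 2 + R2) / b
      - (a * u i ^ 2 + b * v i ^ 2)
      = (u i - v i) * S0 + v i * (S0 - S2) + R0 / a + R2 / b := by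
    field_simp
    ring
  rw [etot]
  have t1 : |(u i - v i) * S0| ≤ H * |u i - v i| := by
    rw [abs_mul, mul_comm]
    exact mul_le_mul_of_nonneg_right bS0 (abs_nonneg _)
  have t2 : |v i * (S0 - S2)| ≤ 2 * (J n * (n * (16 / L)) * H) := by
    rw [abs_mul]
    have e : J n * (n * (8 / L * 2)) * H = J n * (n * (16 / L)) * H := by ring
    rw [e] at bS
    exact mul_le_mul (hv i) bS (abs_nonneg _) (by norm_num)
  calc |(u i - v i) * S0 + v i * (S0 - S2) + R0 / a + R2 / b|
      ≤ |(u i - v i) * S0| + |v i * (S0 - S2)| + |R0 / a| + |R2 / b| := by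
        refine (abs_add_le _ _).trans ?_
        gcongr
        refine (abs_add_le _ _).trans ?_
        gcongr
        exact abs_add_le _ _
    _ ≤ H * |u i - v i| + 2 * (J n * (n * (16 / L)) * H) + J n * (n * (16 / L)) * H ^ 2
        + J n * (n * (16 / L)) * H ^ 2 := by gcongr
    _ = J n * (n * (16 / L)) * (2 * H ^ 2 + 2 * H) + H * |u i - v i| := by ring

open Classical in
/-- the label of a point of the plate neighbourhoods -/
noncomputable def lab (h L : ℝ) (i : Fin n) (x : Fin n → ℝ) : ℤ × (Fin n → ℤ) :=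
  if hx : ∃ p : (Fin n → Bool) × ℤ, 0 < bet L p.1 x ∧ |x i - off p.1 * h - p.2 * (J n * h)| ≤ 2
  then ((off hx.choose.1 : ℤ) + hx.choose.2 * J n, fun l => ⌊x l / L + ph (hx.choose.1 l)⌋)
  else default

theorem lab_spec {h L : ℝ} {i : Fin n} {x : Fin n → ℝ} (hx : x ∈ plates h L i) :
    ∃ (j : Fin n → Bool) (N : ℤ), 0 < bet L j x ∧ |x i - off j * h - N * (J n * h)| ≤ 2 ∧
      lab h L i x = ((off j : ℤ) + N * J n, fun l => ⌊x l / L + ph (j l)⌋) := by
  have hx' : ∃ p : (Fin n → Bool) × ℤ,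
      0 < bet L p.1 x ∧ |x i - off p.1 * h - p.2 * (J n * h)| ≤ 2 := by
    obtain ⟨j, hj, N, hN⟩ := hx
    exact ⟨(j, N), hj, hN⟩
  refine ⟨hx'.choose.1, hx'.choose.2, hx'.choose_spec.1, hx'.choose_spec.2, ?_⟩
  unfold lab
  rw [dif_pos hx']

theorem off_mod_inj {j j' : Fin n → Bool} {N N' : ℤ}
    (h : (off j : ℤ) + N * J n = (off j' : ℤ) + N' * J n) : j = j' := by
  apply off_inj
  have h1 := congrArg (fun t : ℤ => t % (J n : ℤ)) h
  simp only [Int.add_mul_emod_self_right] at h1
  have h2 := off_lt j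
  have h3 := off_lt j'
  rw [Int.emod_eq_of_lt (by positivity) (by exact_mod_cast h2),
    Int.emod_eq_of_lt (by positivity) (by exact_mod_cast h3)] at h1
  exact_mod_cast h1

theorem lab_near {h L D : ℝ} (hL : 0 < L) (hD : D + 4 < h) (hDL : D ≤ L / 8) (i : Fin n)
    {x y : Fin n → ℝ} (hx : x ∈ plates h L i) (hy : y ∈ plates h L i)
    (hxy : ∀ l, |x l - y l| ≤ D) : lab h L i x = lab h L i y := by
  obtain ⟨j, N, hj, hN, hl⟩ := lab_spec hx
  obtain ⟨j', N', hj', hN', hl'⟩ := lab_spec hy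
  have hM : (off j : ℤ) + N * J n = (off j' : ℤ) + N' * J n := by
    by_contra hne
    have h1 : (1 : ℝ) ≤ |(((off j : ℤ) + N * J n : ℤ) : ℝ) - (((off j' : ℤ) + N' * J n : ℤ) : ℝ)| := by
      have : (1 : ℤ) ≤ |((off j : ℤ) + N * J n) - ((off j' : ℤ) + N' * J n)| :=
        Int.one_le_abs (sub_ne_zero.mpr hne)
      have h2 : ((1 : ℤ) : ℝ) ≤ ((|((off j : ℤ) + N * J n) - ((off j' : ℤ) + N' * J n)| : ℤ) : ℝ) := by
        exact_mod_cast this
      simpa using h2
    push_cast at h1
    have h0 : 0 < h := by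
      have := (abs_nonneg _).trans (hxy i)
      linarith
    have h2 : h ≤ |((off j : ℝ) + N * J n - (off j' + N' * J n)) * h| := by
      rw [abs_mul, abs_of_pos h0]
      nlinarith
    have h3 : ((off j : ℝ) + N * J n - (off j' + N' * J n)) * h
        = (x i - y i) - (x i - off j * h - N * (J n * h)) + (y i - off j' * h - N' * (J n * h)) := by
      ring
    rw [h3] at h2
    have h4 : |(x i - y i) - (x i - off j * h - N * (J n * h)) + (y i - off j' * h - N' * (J n * h))|
        ≤ D + 2 + 2 := by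
      refine (abs_add_le _ _).trans ?_
      refine add_le_add ((abs_sub _ _).trans (add_le_add (hxy i) hN)) hN'
    linarith
  have hjj : j = j' := off_mod_inj hM
  rw [hl, hl', hM]
  subst hjj
  congr 1
  funext l
  exact gam_floor hL (gam_pos_of_bet_pos hj l) (gam_pos_of_bet_pos hj' l) ((hxy l).trans hDL)

theorem lab_bdd {h L : ℝ} (hL : 0 < L) (i : Fin n)
    {x y : Fin n → ℝ} (hx : x ∈ plates h L i) (hy : y ∈ plates h L i)
    (hxy : lab h L i x = lab h L i y) (l : Fin n) : |x l - y l| ≤ L := by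
  obtain ⟨j, N, hj, hN, hl⟩ := lab_spec hx
  obtain ⟨j', N', hj', hN', hl'⟩ := lab_spec hy
  rw [hl, hl', Prod.mk.injEq] at hxy
  obtain ⟨hM, hfl⟩ := hxy
  have hjj : j = j' := off_mod_inj hM
  subst hjj
  have h1 := congrFun hfl l
  have h2 := Int.abs_sub_lt_one_of_floor_eq_floor h1
  have h3 : (x l / L + ph (j l)) - (y l / L + ph (j l)) = (x l - y l) / L := by ring
  rw [h3, abs_div, abs_of_pos hL, div_lt_one hL] at h2
  exact h2.le

end H32Lab
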