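import Pool.Agent.H32Lab.Norm

set_option autoImplicit false

/-!
Collinear triples in infinite sets, and the final statement for `n = 72`.
-/

namespace H32Lab

open Finset

/-- In an infinite set whose pairs are covered by finitely many symmetric relations, one relation
contains a triangle. -/
theorem exists_triangle {α ι : Type*} [DecidableEq ι] (R : ι → α → α → Prop) (s : Finset ι) :
    ∀ M : Set α, M.Infinite → (∀ x ∈ M, ∀ y ∈ M, x ≠ y → ∃ i ∈ s, R i x y) →
      ∃ i, ∃ x ∈ M, ∃ y ∈ M, ∃ z ∈ M, x ≠ y ∧ x ≠ z ∧ y ≠ z ∧ R i x y ∧ R i x z ∧ R i y z := by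
  classical
  induction s using Finset.strongInduction with
  | H s ih =>
    intro M hM hR
    obtain ⟨x, hx⟩ := hM.nonempty
    have hM' : (M \ {x}).Infinite := hM.sdiff (Set.finite_singleton x)
    have hcov : M \ {x} ⊆ ⋃ i ∈ s, {y | y ∈ M ∧ y ≠ x ∧ R i x y} := by
      intro y hy
      obtain ⟨i, hi, hRi⟩ := hR x hx y hy.1 (fun h => hy.2 h.symm)
      exact Set.mem_iUnion₂.mpr ⟨i, hi, hy.1, fun h => hy.2 h, hRi⟩
    have hinf : ∃ i ∈ s, ({y | y ∈ M ∧ y ≠ x ∧ R i x y} : Set α).Infinite := by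
      by_contra hcon
      push Not at hcon
      exact hM' (((s.finite_toSet.biUnion (fun i hi => hcon i hi))).subset hcov)
    obtain ⟨i, hi, hMi⟩ := hinf
    by_cases htri : ∃ y ∈ ({y | y ∈ M ∧ y ≠ x ∧ R i x y} : Set α),
        ∃ z ∈ ({y | y ∈ M ∧ y ≠ x ∧ R i x y} : Set α), y ≠ z ∧ R i y z
    · obtain ⟨y, hy, z, hz, hyz, hRyz⟩ := htri
      exact ⟨i, x, hx, y, hy.1, z, hz.1, fun h => hy.2.1 h.symm, fun h => hz.2.1 h.symm, hyz,
        hy.2.2, hz.2.2, hRyz⟩
    · push Not at htri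
      obtain ⟨i', y, hy, z, hz, w, hw, h⟩ := ih (s.erase i) (Finset.erase_ssubset hi)
        {y | y ∈ M ∧ y ≠ x ∧ R i x y} hMi (by
          intro y hy z hz hyz
          obtain ⟨j, hj, hRj⟩ := hR y hy.1 z hz.1 hyz
          refine ⟨j, Finset.mem_erase.mpr ⟨?_, hj⟩, hRj⟩
          rintro rfl
          exact htri y hy z hz hyz hRj)
      exact ⟨i', y, hy.1, z, hz.1, w, hw.1, h⟩

theorem between {p r t : ℝ} : |p - t| = |p - r| + |r - t| ∨ |p - r| = |p - t| + |t - r| ∨
    |r - t| = |r - p| + |p - t| := by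
  rcases le_total p r with h1 | h1 <;> rcases le_total r t with h2 | h2 <;>
    rcases le_total p t with h3 | h3
  · left
    rw [abs_of_nonpos (by linarith), abs_of_nonpos (by linarith), abs_of_nonpos (by linarith)]
    ring
  · left
    rw [abs_of_nonneg (by linarith), abs_of_nonpos (by linarith), abs_of_nonpos (by linarith)]
    linarith
  · right; left
    rw [abs_of_nonpos (by linarith), abs_of_nonpos (by linarith), abs_of_nonpos (by linarith)]
    ring
  · right; right
    rw [abs_of_nonneg (by linarith), abs_of_nonneg (by linarith), abs_of_nonneg (by linarith)]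
    ring
  · right; right
    rw [abs_of_nonpos (by linarith), abs_of_nonpos (by linarith), abs_of_nonpos (by linarith)]
    ring
  · right; left
    rw [abs_of_nonneg (by linarith), abs_of_nonneg (by linarith), abs_of_nonneg (by linarith)]
    ring
  · left
    rw [abs_of_nonpos (by linarith), abs_of_nonneg (by linarith), abs_of_nonneg (by linarith)]
    linarith
  · left
    rw [abs_of_nonneg (by linarith), abs_of_nonneg (by linarith), abs_of_nonneg (by linarith)]
    ring

/-- Every infinite set contains a metrically collinear triple. -/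
theorem exists_collinear {n k : ℕ} (hk : 0 < k) (a : Fin k → Fin n → ℝ) {M : Set (Fin n → ℝ)}
    (hM : M.Infinite) :
    ∃ x ∈ M, ∃ y ∈ M, ∃ z ∈ M, x ≠ y ∧ y ≠ z ∧
      nrm a (x - z) = nrm a (x - y) + nrm a (y - z) := by
  classical
  obtain ⟨i, x, hx, y, hy, z, hz, hxy, hxz, hyz, r1, r2, r3⟩ :=
    exists_triangle (fun (i : Fin k) (x y : Fin n → ℝ) => |ip (a i) (x - y)| = nrm a (x - y))
      Finset.univ M hM (fun x _ y _ _ => by
        obtain ⟨i, hi⟩ := exists_nrm_eq hk a (x - y)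
        exact ⟨i, Finset.mem_univ _, hi⟩)
  have e1 : nrm a (x - y) = |ip (a i) x - ip (a i) y| := by rw [← ip_sub]; exact r1.symm
  have e2 : nrm a (x - z) = |ip (a i) x - ip (a i) z| := by rw [← ip_sub]; exact r2.symm
  have e3 : nrm a (y - z) = |ip (a i) y - ip (a i) z| := by rw [← ip_sub]; exact r3.symm
  rcases between (p := ip (a i) x) (r := ip (a i) y) (t := ip (a i) z) with h | h | h
  · exact ⟨x, hx, y, hy, z, hz, hxy, hyz, by rw [e1, e2, e3]; exact h⟩
  · refine ⟨x, hx, z, hz, y, hy, hxz, hyz.symm, ?_⟩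
    rw [nrm_symm a z y, e1, e2, e3, h, abs_sub_comm (ip (a i) z) (ip (a i) y)]
  · refine ⟨y, hy, x, hx, z, hz, hxy.symm, hxz, ?_⟩
    rw [nrm_symm a y x, e1, e2, e3, h, abs_sub_comm (ip (a i) y) (ip (a i) x)]

/-- In every dimension some polyhedral norm admits, for every infinite set `M`, a 72-colouring
without monochromatic isometric copies of `M`. -/
theorem exists_norm (n : ℕ) :
    ∃ (k : ℕ) (a : Fin k → Fin n → ℝ), (∀ x, nrm a x = 0 → x = 0) ∧
      ∀ M : Set (Fin n → ℝ), M.Infinite → ∃ c : (Fin n → ℝ) → Fin 72,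
        ∀ f : (Fin n → ℝ) → (Fin n → ℝ),
          (∀ x ∈ M, ∀ y ∈ M, nrm a (f x - f y) = nrm a (x - y)) →
          ¬ ∃ col : Fin 72, ∀ x ∈ M, c (f x) = col := by
  obtain ⟨κ, hκ, hcol⟩ := exists_unit_colouring n
  set θ : ℝ := min (1 / 48) (κ ^ 2 / 16) with hθdef
  have hθ0 : 0 < θ := lt_min (by norm_num) (by positivity)
  have hθ : θ ≤ 1 / 48 := min_le_left _ _
  have hθκ : 16 * θ ≤ κ ^ 2 := by
    have := min_le_right (1 / 48) (κ ^ 2 / 16)
    linarith
  obtain ⟨k, a, hk, hfine⟩ := exists_fine n hθ0 (by linarith)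
  have hzero : ∀ x, nrm a x = 0 → x = 0 := fun x hx => fine_eq_zero (by linarith) hfine hx
  refine ⟨k, a, hzero, ?_⟩
  intro M hM
  obtain ⟨p0, hp0, p1, hp1, p2, hp2, h01, h12, hadd⟩ := exists_collinear hk a hM
  have hA : 0 < nrm a (p0 - p1) := by
    rcases (nrm_nonneg a (p0 - p1)).lt_or_eq with h | h
    · exact h
    · exact absurd (sub_eq_zero.mp (hzero _ h.symm)) h01
  have hB : 0 < nrm a (p1 - p2) := by
    rcases (nrm_nonneg a (p1 - p2)).lt_or_eq with h | h
    · exact h
    · exact absurd (sub_eq_zero.mp (hzero _ h.symm)) h12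
  set A := nrm a (p0 - p1) with hAdef
  set B := nrm a (p1 - p2) with hBdef
  have hs : 0 < A + B := by linarith
  obtain ⟨c, hc⟩ := hcol (A / (A + B)) (B / (A + B)) (by positivity) (by positivity)
    (by field_simp)
  refine ⟨fun x => c (fun l => x l / (A + B)), ?_⟩
  rintro f hf ⟨col, hmono⟩
  obtain ⟨u, v, hu, hv, hu2, hv2, huv, h1, h2, h3, h4⟩ :=
    triple hk hθ0 hθ hθκ hκ hfine hA hB (hf p0 hp0 p1 hp1) (hf p1 hp1 p2 hp2)
      ((hf p0 hp0 p2 hp2).trans hadd)
  apply hc (fun l => f p1 l / (A + B)) u v hu2 hv2 huv h1 h2 h3 h4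
  have m0 : c (fun l => f p0 l / (A + B)) = col := hmono p0 hp0
  have m1 : c (fun l => f p1 l / (A + B)) = col := hmono p1 hp1
  have m2 : c (fun l => f p2 l / (A + B)) = col := hmono p2 hp2
  have e0 : (fun l => f p1 l / (A + B) + A / (A + B) * u l) = (fun l => f p0 l / (A + B)) := by
    funext l
    rw [hu l]
    ring
  have e2 : (fun l => f p1 l / (A + B) - B / (A + B) * v l) = (fun l => f p2 l / (A + B)) := by
    funext l
    rw [hv l]
    ring
  rw [e0, e2, m0, m1, m2]
  exact ⟨rfl, rfl⟩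

end H32Lab
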