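import Pool.Agent.H32Lab.Colour

set_option autoImplicit false

/-!
A nearly round polyhedral norm and its metrically collinear triples.
-/

namespace H32Lab

open Finset

variable {n k : ℕ}

/-- the pairing of a functional with a vector -/
noncomputable def ip (f x : Fin n → ℝ) : ℝ := ∑ j, f j * x j

/-- the norm defined by finitely many functionals -/
noncomputable def nrm (a : Fin k → Fin n → ℝ) (x : Fin n → ℝ) : ℝ := ⨆ i : Fin k, |ip (a i) x|

theorem ip_sub (f x y : Fin n → ℝ) : ip f (x - y) = ip f x - ip f y := by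
  unfold ip
  rw [← Finset.sum_sub_distrib]
  apply Finset.sum_congr rfl
  intro j _
  simp only [Pi.sub_apply]
  ring

theorem le_nrm (a : Fin k → Fin n → ℝ) (i : Fin k) (x : Fin n → ℝ) : |ip (a i) x| ≤ nrm a x :=
  le_ciSup (f := fun i => |ip (a i) x|) (Set.finite_range _).bddAbove i

theorem nrm_nonneg (a : Fin k → Fin n → ℝ) (x : Fin n → ℝ) : 0 ≤ nrm a x :=
  Real.iSup_nonneg fun _ => abs_nonneg _

theorem exists_nrm_eq (hk : 0 < k) (a : Fin k → Fin n → ℝ) (x : Fin n → ℝ) :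
    ∃ i, |ip (a i) x| = nrm a x := by
  have : Nonempty (Fin k) := ⟨⟨0, hk⟩⟩
  exact exists_eq_ciSup_of_finite (f := fun i => |ip (a i) x|)

theorem nrm_symm (a : Fin k → Fin n → ℝ) (x y : Fin n → ℝ) : nrm a (x - y) = nrm a (y - x) := by
  unfold nrm
  congr 1
  funext i
  rw [ip_sub, ip_sub, abs_sub_comm]

/-- The functionals form a fine net of the unit ball. -/
def Fine (a : Fin k → Fin n → ℝ) (θ : ℝ) : Prop :=
  (∀ i, ∑ j, a i j ^ 2 ≤ 1) ∧
    ∀ x : Fin n → ℝ, (1 - θ) ^ 2 * ∑ j, x j ^ 2 ≤ nrm a x ^ 2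

theorem exists_fine (n : ℕ) {θ : ℝ} (hθ : 0 < θ) (hθ1 : θ < 1) :
    ∃ (k : ℕ) (a : Fin k → Fin n → ℝ), 0 < k ∧ Fine a θ := by
  classical
  set K : Set (Fin n → ℝ) := {x | ∑ j, x j ^ 2 ≤ 1} with hK
  have hcoord : ∀ x ∈ K, ∀ j, |x j| ≤ 1 := by
    intro x hx j
    have h1 : x j ^ 2 ≤ ∑ j, x j ^ 2 :=
      Finset.single_le_sum (f := fun j => x j ^ 2) (fun i _ => sq_nonneg _) (Finset.mem_univ j)
    have h2 : x j ^ 2 ≤ 1 := h1.trans hx
    exact (sq_le_one_iff_abs_le_one _).mp h2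
  have hcomp : IsCompact K := by
    apply Metric.isCompact_of_isClosed_isBounded
    · exact isClosed_le (by fun_prop) continuous_const
    · apply (Metric.isBounded_closedBall (x := (0 : Fin n → ℝ)) (r := 1)).subset
      intro x hx
      rw [Metric.mem_closedBall, dist_pi_le_iff zero_le_one]
      intro j
      simpa [Real.dist_eq] using hcoord x hx j
  obtain ⟨t, htK, htfin, htcov⟩ := hcomp.finite_cover_balls (e := θ / (n + 1)) (by positivity)
  have ht0 : t.Nonempty := by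
    have h0 : (0 : Fin n → ℝ) ∈ K := by simp [hK]
    obtain ⟨f, hf, _⟩ := Set.mem_iUnion₂.mp (htcov h0)
    exact ⟨f, hf⟩
  have : Fintype t := htfin.fintype
  let e := Fintype.equivFin t
  refine ⟨Fintype.card t, fun i => (e.symm i : Fin n → ℝ), ?_, ?_, ?_⟩
  · have : Nonempty t := ht0.to_subtype
    exact Fintype.card_pos
  · intro i
    exact htK (e.symm i).2
  · intro x
    set S := ∑ j, x j ^ 2 with hS
    have hS0 : 0 ≤ S := Finset.sum_nonneg fun _ _ => sq_nonneg _
    rcases hS0.eq_or_lt with h0 | hpos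
    · rw [← h0, mul_zero]; positivity
    set r := Real.sqrt S with hr
    have hr0 : 0 < r := Real.sqrt_pos.mpr hpos
    have hrr : r * r = S := Real.mul_self_sqrt hS0
    have hy : (fun j => x j / r) ∈ K := by
      show ∑ j, (x j / r) ^ 2 ≤ 1
      have : ∑ j, (x j / r) ^ 2 = S / (r * r) := by
        rw [hS, Finset.sum_div]
        apply Finset.sum_congr rfl
        intro j _
        field_simp
      rw [this, hrr, div_self hpos.ne']
    obtain ⟨f, hf, hfy⟩ := Set.mem_iUnion₂.mp (htcov hy)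
    rw [Metric.mem_ball, dist_pi_lt_iff (by positivity)] at hfy
    have hip : (1 - θ) * r ≤ ip f x := by
      have h1 : ip f x = r * (∑ j, (x j / r) ^ 2 - ∑ j, (x j / r - f j) * (x j / r)) := by
        unfold ip
        rw [← Finset.sum_sub_distrib, Finset.mul_sum]
        apply Finset.sum_congr rfl
        intro j _
        field_simp
        ring
      have h2 : ∑ j, (x j / r) ^ 2 = 1 := by
        have : ∑ j, (x j / r) ^ 2 = S / (r * r) := by
          rw [hS, Finset.sum_div]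
          apply Finset.sum_congr rfl
          intro j _
          field_simp
        rw [this, hrr, div_self hpos.ne']
      have h3 : ∑ j, (x j / r - f j) * (x j / r) ≤ θ := by
        have h4 : ∀ j ∈ (univ : Finset (Fin n)),
            (x j / r - f j) * (x j / r) ≤ θ / (n + 1) := by
          intro j _
          refine (le_abs_self _).trans ?_
          rw [abs_mul]
          have h5 := hfy j
          rw [Real.dist_eq] at h5
          have h6 := hcoord _ hy j
          have h7 : 0 ≤ θ / (n + 1 : ℝ) := by positivity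
          calc |x j / r - f j| * |x j / r| ≤ θ / (n + 1) * 1 :=
                mul_le_mul h5.le h6 (abs_nonneg _) h7
            _ = θ / (n + 1) := mul_one _
        refine (Finset.sum_le_sum h4).trans ?_
        rw [Finset.sum_const, Finset.card_univ, Fintype.card_fin, nsmul_eq_mul,
          mul_div_assoc', div_le_iff₀ (by positivity)]
        nlinarith
      rw [h1, h2]
      nlinarith
    have h8 : ip f x ≤ nrm (fun i => (e.symm i : Fin n → ℝ)) x := by
      have h9 := le_nrm (fun i => (e.symm i : Fin n → ℝ)) (e ⟨f, hf⟩) x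
      simp only [Equiv.symm_apply_apply] at h9
      exact (le_abs_self _).trans h9
    have h10 : (1 - θ) * r ≤ nrm (fun i => (e.symm i : Fin n → ℝ)) x := hip.trans h8
    have h11 : 0 ≤ (1 - θ) * r := mul_nonneg (by linarith) hr0.le
    calc (1 - θ) ^ 2 * S = ((1 - θ) * r) ^ 2 := by rw [← hrr]; ring
      _ ≤ _ := pow_le_pow_left₀ h11 h10 2

theorem fine_eq_zero {a : Fin k → Fin n → ℝ} {θ : ℝ} (hθ1 : θ < 1) (ha : Fine a θ)
    {x : Fin n → ℝ} (hx : nrm a x = 0) : x = 0 := by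
  have h1 := ha.2 x
  rw [hx] at h1
  have h2 : 0 < (1 - θ) ^ 2 := by
    have : 0 < 1 - θ := by linarith
    positivity
  have h3 : ∑ j, x j ^ 2 ≤ 0 := by
    by_contra hcon
    push Not at hcon
    nlinarith [mul_pos h2 hcon]
  have h4 : ∑ j, x j ^ 2 = 0 := le_antisymm h3 (Finset.sum_nonneg fun _ _ => sq_nonneg _)
  rw [Finset.sum_eq_zero_iff_of_nonneg (fun _ _ => sq_nonneg _)] at h4
  funext j
  simpa using h4 j (Finset.mem_univ j)

/-- A unit vector of the norm on the facet of `f` is Euclidean-close to `f`. -/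
theorem facet_close {a : Fin k → Fin n → ℝ} {θ : ℝ} (hθ0 : 0 < θ) (hθ : θ ≤ 1 / 48)
    (ha : Fine a θ) {f w : Fin n → ℝ} (hf : ∑ j, f j ^ 2 ≤ 1) (hfw : ip f w = 1)
    (hw : nrm a w ≤ 1) :
    1 ≤ ∑ j, w j ^ 2 ∧ ∑ j, w j ^ 2 ≤ 1 + 4 * θ ∧ ∀ j, (w j - f j) ^ 2 ≤ 4 * θ := by
  set U := ∑ j, w j ^ 2 with hU
  have hU0 : 0 ≤ U := Finset.sum_nonneg fun _ _ => sq_nonneg _
  have h1 : 1 ≤ U := by
    have hcs := Finset.sum_mul_sq_le_sq_mul_sq univ f w
    have h2 : (∑ j, f j * w j) = 1 := hfw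
    rw [h2] at hcs
    have h3 : (∑ j, f j ^ 2) * U ≤ 1 * U := mul_le_mul_of_nonneg_right hf hU0
    linarith
  have h2 : U ≤ 1 + 4 * θ := by
    have h3 := ha.2 w
    have h4 : nrm a w ^ 2 ≤ 1 := by
      have := nrm_nonneg a w
      nlinarith
    have h5 : (1 - θ) ^ 2 * U ≤ 1 := h3.trans h4
    have h6 : 1 ≤ (1 - θ) ^ 2 * (1 + 4 * θ) := by nlinarith [mul_pos hθ0 hθ0]
    have h7 : 0 < (1 - θ) ^ 2 := by
      have : 0 < 1 - θ := by linarith
      positivity
    exact le_of_mul_le_mul_left (h5.trans h6) h7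
  refine ⟨h1, h2, fun j => ?_⟩
  have h3 : ∑ j, (w j - f j) ^ 2 = U - 2 * ip f w + ∑ j, f j ^ 2 := by
    unfold ip
    rw [hU, Finset.mul_sum, ← Finset.sum_sub_distrib, ← Finset.sum_add_distrib]
    apply Finset.sum_congr rfl
    intro j _
    ring
  have h4 : (w j - f j) ^ 2 ≤ ∑ j, (w j - f j) ^ 2 :=
    Finset.single_le_sum (f := fun j => (w j - f j) ^ 2) (fun i _ => sq_nonneg _)
      (Finset.mem_univ j)
  rw [h3, hfw] at h4
  linarith

theorem ip_neg (f x : Fin n → ℝ) : ip (fun j => - f j) x = - ip f x := by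
  unfold ip
  rw [← Finset.sum_neg_distrib]
  apply Finset.sum_congr rfl
  intro j _
  ring

theorem nrm_smul (a : Fin k → Fin n → ℝ) {c : ℝ} (hc : 0 < c) (x : Fin n → ℝ) :
    nrm a (fun j => x j / c) = nrm a x / c := by
  unfold nrm
  rw [div_eq_inv_mul, Real.mul_iSup_of_nonneg (by positivity)]
  congr 1
  funext i
  have : ip (a i) (fun j => x j / c) = c⁻¹ * ip (a i) x := by
    unfold ip
    rw [Finset.mul_sum]
    apply Finset.sum_congr rfl
    intro j _
    field_simp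
  rw [this, abs_mul, abs_of_pos (by positivity : 0 < c⁻¹)]

/-- Metrically collinear triples are nearly collinear. -/
theorem triple {a : Fin k → Fin n → ℝ} {θ κ : ℝ} (hk : 0 < k) (hθ0 : 0 < θ) (hθ : θ ≤ 1 / 48)
    (hθκ : 16 * θ ≤ κ ^ 2) (hκ : 0 < κ) (ha : Fine a θ) {x0 x1 x2 : Fin n → ℝ} {A B : ℝ}
    (hA : 0 < A) (hB : 0 < B) (h01 : nrm a (x0 - x1) = A) (h12 : nrm a (x1 - x2) = B)
    (h02 : nrm a (x0 - x2) = A + B) :
    ∃ u v : Fin n → ℝ, (∀ l, x0 l = x1 l + A * u l) ∧ (∀ l, x2 l = x1 l - B * v l) ∧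
      (∀ l, |u l| ≤ 2) ∧ (∀ l, |v l| ≤ 2) ∧ (∀ l, |u l - v l| ≤ κ) ∧
      11 / 12 ≤ ∑ l, u l ^ 2 ∧ ∑ l, u l ^ 2 ≤ 13 / 12 ∧
      11 / 12 ≤ ∑ l, v l ^ 2 ∧ ∑ l, v l ^ 2 ≤ 13 / 12 := by
  obtain ⟨i, hi⟩ := exists_nrm_eq hk a (x0 - x2)
  rw [h02] at hi
  have key : ∀ f : Fin n → ℝ, (∑ j, f j ^ 2 ≤ 1) → (∀ y, ip f y ≤ nrm a y) →
      ip f (x0 - x2) = A + B →
      ∃ u v : Fin n → ℝ, (∀ l, x0 l = x1 l + A * u l) ∧ (∀ l, x2 l = x1 l - B * v l) ∧
      (∀ l, |u l| ≤ 2) ∧ (∀ l, |v l| ≤ 2) ∧ (∀ l, |u l - v l| ≤ κ) ∧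
      11 / 12 ≤ ∑ l, u l ^ 2 ∧ ∑ l, u l ^ 2 ≤ 13 / 12 ∧
      11 / 12 ≤ ∑ l, v l ^ 2 ∧ ∑ l, v l ^ 2 ≤ 13 / 12 := by
    intro f hf hfn hfe
    have e01 := hfn (x0 - x1)
    have e12 := hfn (x1 - x2)
    rw [h01] at e01
    rw [h12] at e12
    have esum : ip f (x0 - x2) = ip f (x0 - x1) + ip f (x1 - x2) := by
      rw [ip_sub, ip_sub, ip_sub]; ring
    have e1 : ip f (x0 - x1) = A := by linarith
    have e2 : ip f (x1 - x2) = B := by linarith
    set u : Fin n → ℝ := fun j => (x0 - x1) j / A with hu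
    set v : Fin n → ℝ := fun j => (x1 - x2) j / B with hv
    have hfu : ip f u = 1 := by
      have : ip f u = ip f (x0 - x1) / A := by
        unfold ip
        rw [hu, Finset.sum_div]
        apply Finset.sum_congr rfl
        intro j _
        ring
      rw [this, e1, div_self hA.ne']
    have hfv : ip f v = 1 := by
      have : ip f v = ip f (x1 - x2) / B := by
        unfold ip
        rw [hv, Finset.sum_div]
        apply Finset.sum_congr rfl
        intro j _
        ring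
      rw [this, e2, div_self hB.ne']
    have hnu : nrm a u ≤ 1 := by
      rw [hu, nrm_smul a hA, h01, div_self hA.ne']
    have hnv : nrm a v ≤ 1 := by
      rw [hv, nrm_smul a hB, h12, div_self hB.ne']
    obtain ⟨u1, u2, u3⟩ := facet_close hθ0 hθ ha hf hfu hnu
    obtain ⟨v1, v2, v3⟩ := facet_close hθ0 hθ ha hf hfv hnv
    have hbd : ∀ w : Fin n → ℝ, ∑ j, w j ^ 2 ≤ 1 + 4 * θ → ∀ l, |w l| ≤ 2 := by
      intro w hw l
      have h1 : w l ^ 2 ≤ ∑ j, w j ^ 2 :=
        Finset.single_le_sum (f := fun j => w j ^ 2) (fun i _ => sq_nonneg _) (Finset.mem_univ l)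
      have h2 : w l ^ 2 ≤ 2 ^ 2 := by linarith
      exact abs_le_of_sq_le_sq h2 (by norm_num)
    have hcl : ∀ w : Fin n → ℝ, (∀ j, (w j - f j) ^ 2 ≤ 4 * θ) → ∀ l, |w l - f l| ≤ κ / 2 := by
      intro w hw l
      have h2 : (w l - f l) ^ 2 ≤ (κ / 2) ^ 2 := by
        have := hw l
        nlinarith
      exact abs_le_of_sq_le_sq h2 (by positivity)
    refine ⟨u, v, ?_, ?_, hbd u u2, hbd v v2, ?_, by linarith, by linarith, by linarith,
      by linarith⟩
    · intro l
      simp only [hu, Pi.sub_apply]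
      field_simp
      ring
    · intro l
      simp only [hv, Pi.sub_apply]
      field_simp
      ring
    · intro l
      have h1 := hcl u u3 l
      have h2 := hcl v v3 l
      rw [abs_sub_comm] at h2
      have := abs3 h1 h2
      linarith
  rcases le_total 0 (ip (a i) (x0 - x2)) with hs | hs
  · rw [abs_of_nonneg hs] at hi
    exact key (a i) (ha.1 i) (fun y => (le_abs_self _).trans (le_nrm a i y)) hi
  · rw [abs_of_nonpos hs] at hi
    refine key (fun j => - a i j) ?_ ?_ ?_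
    · simpa using ha.1 i
    · intro y
      rw [ip_neg]
      exact (neg_le_abs _).trans (le_nrm a i y)
    · rw [ip_neg]
      exact hi

end H32Lab
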