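import Mathlib

set_option autoImplicit false

/-!
One-dimensional ingredients: a periodic parabola with kinks and a two-element partition of unity.
-/

namespace H32Lab

open Finset

/-- the representative of `y` modulo `H` in `[0, H)` -/
noncomputable def fr (H y : ℝ) : ℝ := y - H * ⌊y / H⌋

/-- the `H`-periodic parabola, zero at the multiples of `H` -/
noncomputable def q (H y : ℝ) : ℝ := fr H y * (fr H y - H)

/-- the slope of `q` -/
noncomputable def slo (H y : ℝ) : ℝ := 2 * fr H y - H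

theorem fr_nonneg {H : ℝ} (hH : 0 < H) (y : ℝ) : 0 ≤ fr H y := by
  unfold fr
  have h1 : (⌊y / H⌋ : ℝ) ≤ y / H := Int.floor_le _
  have h2 : H * (⌊y / H⌋ : ℝ) ≤ H * (y / H) := by gcongr
  have h3 : H * (y / H) = y := by field_simp
  linarith

theorem fr_lt {H : ℝ} (hH : 0 < H) (y : ℝ) : fr H y < H := by
  unfold fr
  have h1 : y / H < (⌊y / H⌋ : ℝ) + 1 := Int.lt_floor_add_one _
  have h2 : H * (y / H) < H * ((⌊y / H⌋ : ℝ) + 1) := by gcongr
  have h3 : H * (y / H) = y := by field_simp
  linarith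

theorem abs_q_le {H : ℝ} (hH : 0 < H) (y : ℝ) : |q H y| ≤ H ^ 2 := by
  have h1 := fr_nonneg hH y
  have h2 := fr_lt hH y
  unfold q
  rw [abs_mul, abs_of_nonneg h1, abs_of_nonpos (by linarith)]
  nlinarith

theorem abs_slo_le {H : ℝ} (hH : 0 < H) (y : ℝ) : |slo H y| ≤ H := by
  have h1 := fr_nonneg hH y
  have h2 := fr_lt hH y
  unfold slo
  rw [abs_le]
  constructor <;> linarith

theorem q_diff {H y y' : ℝ} (h : ⌊y' / H⌋ = ⌊y / H⌋) :
    q H y' - q H y = (y' - y) * slo H y + (y' - y) ^ 2 := by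
  unfold q slo fr
  rw [h]
  ring

theorem floor_eq_of_far {H t y y' : ℝ} (hH : 0 < H)
    (hfar : ∀ N : ℤ, t < |y - N * H|) (hd : |y' - y| ≤ t) : ⌊y / H⌋ = ⌊y' / H⌋ := by
  have ha : (⌊y / H⌋ : ℝ) * H ≤ y := by
    have := Int.floor_le (y / H)
    rwa [le_div_iff₀ hH] at this
  have hb : y < ((⌊y / H⌋ : ℝ) + 1) * H := by
    have := Int.lt_floor_add_one (y / H)
    rwa [div_lt_iff₀ hH] at this
  have h1 := hfar ⌊y / H⌋
  have h2 := hfar (⌊y / H⌋ + 1)
  push_cast at h2
  rw [abs_of_nonneg (by linarith)] at h1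
  rw [abs_of_nonpos (by linarith)] at h2
  have h3 := abs_le.mp hd
  symm
  rw [Int.floor_eq_iff]
  constructor
  · rw [le_div_iff₀ hH]
    linarith [h3.1]
  · rw [div_lt_iff₀ hH]
    linarith [h3.2]

/-- truncation to `[0,1]` -/
noncomputable def clamp (x : ℝ) : ℝ := max 0 (min 1 x)

theorem clamp_nonneg (x : ℝ) : 0 ≤ clamp x := le_max_left _ _

theorem clamp_le_one (x : ℝ) : clamp x ≤ 1 := max_le zero_le_one (min_le_left _ _)

theorem clamp_of_nonpos {x : ℝ} (h : x ≤ 0) : clamp x = 0 := by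
  unfold clamp
  rw [min_eq_right (by linarith), max_eq_left h]

theorem clamp_lip (x y : ℝ) : |clamp x - clamp y| ≤ |x - y| := by
  unfold clamp
  refine (abs_max_sub_max_le_max _ _ _ _).trans ?_
  refine max_le (by simp) ?_
  refine (abs_min_sub_min_le_max _ _ _ _).trans ?_
  exact max_le (by simp) le_rfl

theorem clamp_add (g : ℝ) : clamp (1 / 2 - g) + clamp (1 / 2 + g) = 1 := by
  unfold clamp
  rcases le_total g (-1/2) with h1 | h1
  · rw [min_eq_left (by linarith), max_eq_right (by norm_num), min_eq_right (by linarith),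
      max_eq_left (by linarith)]
    norm_num
  rcases le_total g (1/2) with h2 | h2
  · rw [min_eq_right (by linarith), max_eq_right (by linarith), min_eq_right (by linarith),
      max_eq_right (by linarith)]
    ring
  · rw [min_eq_right (by linarith), max_eq_left (by linarith), min_eq_left (by linarith),
      max_eq_right (by norm_num)]
    norm_num

/-- the phase of the two members of the partition of unity -/
noncomputable def ph (p : Bool) : ℝ := if p then 1 / 2 else 0

/-- two-element partition of unity on the line, at scale `L` -/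
noncomputable def gam (L : ℝ) (p : Bool) (z : ℝ) : ℝ :=
  clamp (1 / 2 - Real.cos (2 * Real.pi * (z / L + ph p)))

theorem gam_nonneg (L : ℝ) (p : Bool) (z : ℝ) : 0 ≤ gam L p z := clamp_nonneg _

theorem gam_le_one (L : ℝ) (p : Bool) (z : ℝ) : gam L p z ≤ 1 := clamp_le_one _

theorem gam_add (L z : ℝ) : gam L true z + gam L false z = 1 := by
  have h : Real.cos (2 * Real.pi * (z / L + 1 / 2)) = - Real.cos (2 * Real.pi * (z / L)) := by
    have : 2 * Real.pi * (z / L + 1 / 2) = 2 * Real.pi * (z / L) + Real.pi := by ring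
    rw [this, Real.cos_add_pi]
  unfold gam ph
  simp only [if_true, Bool.false_eq_true, if_false, add_zero]
  rw [h, sub_neg_eq_add, add_comm]
  exact clamp_add _

theorem gam_lip {L : ℝ} (hL : 0 < L) (p : Bool) (z z' : ℝ) :
    |gam L p z - gam L p z'| ≤ 8 / L * |z - z'| := by
  unfold gam
  refine (clamp_lip _ _).trans ?_
  have h1 : (1 / 2 - Real.cos (2 * Real.pi * (z / L + ph p)))
      - (1 / 2 - Real.cos (2 * Real.pi * (z' / L + ph p)))
      = Real.cos (2 * Real.pi * (z' / L + ph p)) - Real.cos (2 * Real.pi * (z / L + ph p)) := by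
    ring
  rw [h1]
  refine (Real.abs_cos_sub_cos_le _ _).trans ?_
  have h2 : 2 * Real.pi * (z' / L + ph p) - 2 * Real.pi * (z / L + ph p)
      = (2 * Real.pi / L) * (z' - z) := by ring
  rw [h2, abs_mul, abs_of_pos (by positivity), abs_sub_comm z' z]
  have h3 : 2 * Real.pi ≤ 8 := by linarith [Real.pi_le_four]
  gcongr

theorem gam_near {L : ℝ} {p : Bool} {z : ℝ} (N : ℤ)
    (h : |z / L + ph p - N| ≤ 1 / 8) : gam L p z = 0 := by
  unfold gam
  apply clamp_of_nonpos
  have h1 : Real.cos (2 * Real.pi * (z / L + ph p))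
      = Real.cos (2 * Real.pi * (z / L + ph p - N)) := by
    have : 2 * Real.pi * (z / L + ph p - N) = 2 * Real.pi * (z / L + ph p) - N * (2 * Real.pi) := by
      ring
    rw [this, Real.cos_sub_int_mul_two_pi]
  rw [h1]
  have h2 := Real.one_sub_sq_div_two_le_cos (x := 2 * Real.pi * (z / L + ph p - N))
  have h3 : |2 * Real.pi * (z / L + ph p - N)| ≤ 4/5 := by
    rw [abs_mul, abs_of_pos Real.two_pi_pos]
    have := Real.pi_lt_d2
    have h5 := abs_nonneg (z / L + ph p - N)
    nlinarith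
  have h4 : (2 * Real.pi * (z / L + ph p - N)) ^ 2 ≤ (4/5) ^ 2 := by
    rw [← sq_abs]
    exact pow_le_pow_left₀ (abs_nonneg _) h3 2
  linarith

theorem gam_floor {L : ℝ} (hL : 0 < L) {p : Bool} {z z' : ℝ}
    (h : 0 < gam L p z) (h' : 0 < gam L p z') (hd : |z - z'| ≤ L / 8) :
    ⌊z / L + ph p⌋ = ⌊z' / L + ph p⌋ := by
  have key : ∀ w w' : ℝ, 0 < gam L p w' → |w - w'| ≤ L / 8 →
      ¬ (⌊w / L + ph p⌋ < ⌊w' / L + ph p⌋) := by
    intro w w' hw hww hlt
    have h1 : w / L + ph p < ⌊w' / L + ph p⌋ := by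
      have h1 := Int.lt_floor_add_one (w / L + ph p)
      have h2 : (⌊w / L + ph p⌋ : ℝ) + 1 ≤ ⌊w' / L + ph p⌋ := by exact_mod_cast hlt
      linarith
    have h2 : (⌊w' / L + ph p⌋ : ℝ) ≤ w' / L + ph p := Int.floor_le _
    have h3 : w' / L - w / L ≤ 1 / 8 := by
      rw [← sub_div, div_le_iff₀ hL]
      have := (abs_le.mp hww).1
      linarith
    have h4 : gam L p w' = 0 := by
      apply gam_near ⌊w' / L + ph p⌋
      rw [abs_le]
      constructor <;> linarith
    linarith
  have a := key z z' h' hd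
  have b := key z' z h (by rwa [abs_sub_comm])
  omega

end H32Lab
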