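import Pool.Agent.H32Lab.Coord

set_option autoImplicit false

/-!
Chains inside the union of all plate neighbourhoods are bounded, and the resulting pair of
potentials.
-/

namespace H32Lab

open Finset

variable {n : ℕ}

/-- two points of `V` at sup-distance at most `2` -/
def Adj (V : Set (Fin n → ℝ)) (x y : Fin n → ℝ) : Prop := x ∈ V ∧ y ∈ V ∧ ∀ l, |x l - y l| ≤ 2

/-- chains in `V` have extent at most `D` -/
def ChainBdd (V : Set (Fin n → ℝ)) (D : ℝ) : Prop :=
  ∀ x y, Relation.ReflTransGen (Adj V) x y → ∀ l, |x l - y l| ≤ D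

theorem abs3 {x y z : ℝ} {p r : ℝ} (h1 : |x - y| ≤ p) (h2 : |y - z| ≤ r) : |x - z| ≤ p + r := by
  have e : x - z = (x - y) + (y - z) := by ring
  rw [e]
  exact (abs_add_le _ _).trans (add_le_add h1 h2)

theorem chainBdd_union {V : Set (Fin n → ℝ)} {D h L : ℝ} {i : Fin n} (hV : ChainBdd V D)
    (hD0 : 0 ≤ D) (hh : D + 8 < h) (hL : 0 < L) (hDL : D + 4 ≤ L / 8) :
    ChainBdd (V ∪ plates h L i) (2 * D + 4 + L) := by
  have key : ∀ x y, Relation.ReflTransGen (Adj (V ∪ plates h L i)) x y →
      (Relation.ReflTransGen (Adj V) x y) ∨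
      (∃ p q, p ∈ plates h L i ∧ q ∈ plates h L i ∧ lab h L i p = lab h L i q ∧
        (∀ l, |x l - p l| ≤ D + 2) ∧
        (y = q ∨ ∃ q', (∀ l, |q l - q' l| ≤ 2) ∧ q' ∈ V ∧ y ∈ V ∧
          Relation.ReflTransGen (Adj V) q' y)) := by
    intro x y hxy
    induction hxy with
    | refl => exact Or.inl Relation.ReflTransGen.refl
    | @tail y y' _ hstep ih =>
      obtain ⟨hy, hy', hd⟩ := hstep
      rcases ih with ih | ⟨p, q, hp, hq, hlab, hxp, hyq⟩
      · rcases hy' with hy' | hy'
        · rcases hy with hy | hy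
          · exact Or.inl (ih.tail ⟨hy, hy', hd⟩)
          · refine Or.inr ⟨y, y, hy, hy, rfl, fun l => (hV x y ih l).trans (by linarith),
              Or.inr ⟨y', hd, hy', hy', Relation.ReflTransGen.refl⟩⟩
        · refine Or.inr ⟨y', y', hy', hy', rfl, fun l => abs3 (hV x y ih l) (hd l), Or.inl rfl⟩
      · rcases hy' with hy' | hy'
        · refine Or.inr ⟨p, q, hp, hq, hlab, hxp, Or.inr ?_⟩
          rcases hyq with hyq | ⟨q', hq', hq'V, hyV, hch⟩
          · subst hyq
            exact ⟨y', hd, hy', hy', Relation.ReflTransGen.refl⟩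
          · exact ⟨q', hq', hq'V, hy', hch.tail ⟨hyV, hy', hd⟩⟩
        · refine Or.inr ⟨p, y', hp, hy', hlab.trans ?_, hxp, Or.inl rfl⟩
          have hdist : ∀ l, |q l - y' l| ≤ D + 4 := by
            intro l
            rcases hyq with hyq | ⟨q', hq', hq'V, hyV, hch⟩
            · subst hyq
              exact (hd l).trans (by linarith)
            · have := abs3 (abs3 (hq' l) (hV q' y hch l)) (hd l)
              linarith
          exact lab_near hL (by linarith) hDL i hq hy' hdist
  intro x y hxy l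
  rcases key x y hxy with h1 | ⟨p, q, hp, hq, hlab, hxp, hyq⟩
  · exact (hV x y h1 l).trans (by linarith)
  · have h2 := lab_bdd hL i hp hq hlab l
    have h3 := abs3 (hxp l) h2
    have h4 : |q l - y l| ≤ D + 2 := by
      rcases hyq with hyq | ⟨q', hq', hq'V, hyV, hch⟩
      · subst hyq
        simp only [sub_self, abs_zero]
        linarith
      · have := abs3 (hq' l) (hV q' y hch l)
        linarith
    have h5 := abs3 h3 h4
    linarith

theorem exists_system (s : Finset (Fin n)) {ε : ℝ} (hε : 0 < ε) :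
    ∃ (V : Set (Fin n → ℝ)) (Ψ : (Fin n → ℝ) → ℝ) (G D : ℝ), 0 ≤ G ∧ 0 ≤ D ∧ ChainBdd V D ∧
      ∀ (x1 u v : Fin n → ℝ) (a b κ : ℝ), 0 < a → 0 < b → a + b = 1 → (∀ l, |u l| ≤ 2) →
        (∀ l, |v l| ≤ 2) → (∀ l, |u l - v l| ≤ κ) →
        (fun l => x1 l + a * u l) ∉ V → (fun l => x1 l - b * v l) ∉ V →
        |(Ψ (fun l => x1 l + a * u l) - Ψ x1) / a + (Ψ (fun l => x1 l - b * v l) - Ψ x1) / b
          - ∑ i ∈ s, (a * u i ^ 2 + b * v i ^ 2)| ≤ s.card * ε + G * κ := by
  classical
  induction s using Finset.induction_on with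
  | empty =>
    refine ⟨∅, fun _ => 0, 0, 0, le_rfl, le_rfl, ?_, ?_⟩
    · intro x y hxy l
      have : x = y := by
        induction hxy with
        | refl => rfl
        | tail _ hstep _ => exact absurd hstep.1 (by simp)
      subst this
      simp
    · intro x1 u v a b κ _ _ _ _ _ _ _ _
      simp
  | insert i s his ih =>
    obtain ⟨V, Ψ, G, D, hG, hD, hV, hest⟩ := ih
    set h : ℝ := D + 9 with hh
    have hh0 : 0 < h := by linarith
    have hJ : (0 : ℝ) < J n := by exact_mod_cast J_pos n
    set H : ℝ := J n * h with hH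
    have hH0 : 0 < H := by positivity
    set T : ℝ := J n * (n * 16) * (2 * H ^ 2 + 2 * H) with hT
    have hT0 : 0 ≤ T := by positivity
    set L : ℝ := 8 * (D + 4) + T / ε with hLdef
    have hL0 : 0 < L := by
      have : 0 ≤ T / ε := by positivity
      linarith
    have hTL : J n * (n * (16 / L)) * (2 * H ^ 2 + 2 * H) ≤ ε := by
      have e : J n * (n * (16 / L)) * (2 * H ^ 2 + 2 * H) = T / L := by
        rw [hT]; ring
      rw [e, div_le_iff₀ hL0]
      have h1 : T / ε ≤ L := by linarith
      rw [div_le_iff₀ hε] at h1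
      linarith
    refine ⟨V ∪ plates h L i, fun x => Ψ x + psi h L i x, G + H, 2 * D + 4 + L, by linarith,
      by linarith, ?_, ?_⟩
    · apply chainBdd_union hV hD (by linarith) hL0
      have : 0 ≤ T / ε := by positivity
      linarith
    · intro x1 u v a b κ ha hb hab hu hv hκ h0 h2
      have h0V : (fun l => x1 l + a * u l) ∉ V := fun hx => h0 (Or.inl hx)
      have h0P : (fun l => x1 l + a * u l) ∉ plates h L i := fun hx => h0 (Or.inr hx)
      have h2V : (fun l => x1 l - b * v l) ∉ V := fun hx => h2 (Or.inl hx)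
      have h2P : (fun l => x1 l - b * v l) ∉ plates h L i := fun hx => h2 (Or.inr hx)
      have e1 := hest x1 u v a b κ ha hb hab hu hv hκ h0V h2V
      have e2 := psi_est hh0 hL0 i x1 u v ha hb hab hu hv h0P h2P
      rw [Finset.sum_insert his, Finset.card_insert_of_notMem his]
      have e3 : H * |u i - v i| ≤ H * κ := mul_le_mul_of_nonneg_left (hκ i) hH0.le
      have e4 : (Ψ (fun l => x1 l + a * u l) + psi h L i (fun l => x1 l + a * u l)
            - (Ψ x1 + psi h L i x1)) / a
          + (Ψ (fun l => x1 l - b * v l) + psi h L i (fun l => x1 l - b * v l)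
            - (Ψ x1 + psi h L i x1)) / b
          - (a * u i ^ 2 + b * v i ^ 2 + ∑ i ∈ s, (a * u i ^ 2 + b * v i ^ 2))
          = ((Ψ (fun l => x1 l + a * u l) - Ψ x1) / a + (Ψ (fun l => x1 l - b * v l) - Ψ x1) / b
          - ∑ i ∈ s, (a * u i ^ 2 + b * v i ^ 2))
          + ((psi h L i (fun l => x1 l + a * u l) - psi h L i x1) / a
            + (psi h L i (fun l => x1 l - b * v l) - psi h L i x1) / b
            - (a * u i ^ 2 + b * v i ^ 2)) := by ring
      show |(Ψ (fun l => x1 l + a * u l) + psi h L i (fun l => x1 l + a * u l)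
            - (Ψ x1 + psi h L i x1)) / a
          + (Ψ (fun l => x1 l - b * v l) + psi h L i (fun l => x1 l - b * v l)
            - (Ψ x1 + psi h L i x1)) / b
          - (a * u i ^ 2 + b * v i ^ 2 + ∑ i ∈ s, (a * u i ^ 2 + b * v i ^ 2))| ≤ _
      rw [e4]
      refine (abs_add_le _ _).trans ?_
      push_cast
      have e5 : ((s.card : ℝ) + 1) * ε + (G + H) * κ
          = (s.card * ε + G * κ) + (ε + H * κ) := by ring
      rw [e5]
      exact add_le_add e1 (e2.trans (add_le_add hTL e3))

open Classical in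
/-- a canonical element of a set -/
noncomputable def pick (S : Set (Fin n → ℝ)) : Fin n → ℝ := if h : S.Nonempty then h.some else 0

theorem adj_symm {V : Set (Fin n → ℝ)} {x y : Fin n → ℝ} (h : Adj V x y) : Adj V y x :=
  ⟨h.2.1, h.1, fun l => by rw [abs_sub_comm]; exact h.2.2 l⟩

/-- Two potentials: `Ψ` off `V`, and squared distance to a cluster centre on `V`. -/
theorem exists_potential (n : ℕ) :
    ∃ (V : Set (Fin n → ℝ)) (F : (Fin n → ℝ) → ℝ) (G : ℝ), 0 ≤ G ∧
      ∀ (x1 u v : Fin n → ℝ) (a b κ : ℝ), 0 < a → 0 < b → a + b = 1 → 0 ≤ κ → (∀ l, |u l| ≤ 2) →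
        (∀ l, |v l| ≤ 2) → (∀ l, |u l - v l| ≤ κ) →
        ((fun l => x1 l + a * u l) ∈ V ↔ x1 ∈ V) → ((fun l => x1 l - b * v l) ∈ V ↔ x1 ∈ V) →
        |(F (fun l => x1 l + a * u l) - F x1) / a + (F (fun l => x1 l - b * v l) - F x1) / b
          - ∑ i, (a * u i ^ 2 + b * v i ^ 2)| ≤ 1 / 12 + G * κ := by
  classical
  obtain ⟨V, Ψ, G, D, hG, hD, hV, hest⟩ :=
    exists_system (univ : Finset (Fin n)) (ε := 1 / (12 * (n + 1))) (by positivity)
  set cen : (Fin n → ℝ) → (Fin n → ℝ) :=
    fun x => pick {y | Relation.ReflTransGen (Adj V) x y} with hcen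
  have hcen1 : ∀ x l, |x l - cen x l| ≤ D := by
    intro x l
    have hne : ({y | Relation.ReflTransGen (Adj V) x y}).Nonempty :=
      ⟨x, Relation.ReflTransGen.refl⟩
    have : cen x = hne.some := by
      rw [hcen]
      simp only [pick, dif_pos hne]
    rw [this]
    exact hV x _ hne.some_mem l
  have hcen2 : ∀ x y, Adj V x y → cen x = cen y := by
    intro x y hxy
    have : {z | Relation.ReflTransGen (Adj V) x z} = {z | Relation.ReflTransGen (Adj V) y z} := by
      ext z
      constructor
      · intro hz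
        exact Relation.ReflTransGen.head (adj_symm hxy) hz
      · intro hz
        exact Relation.ReflTransGen.head hxy hz
    rw [hcen]
    simp only [this]
  refine ⟨V, fun x => if x ∈ V then ∑ l, (x l - cen x l) ^ 2 else Ψ x, G + 2 * (n * D),
    by positivity, ?_⟩
  intro x1 u v a b κ ha hb hab hκ0 hu hv hκ h0 h2
  by_cases hx : x1 ∈ V
  · have h0' := h0.mpr hx
    have h2' := h2.mpr hx
    have c0 : cen (fun l => x1 l + a * u l) = cen x1 := by
      apply hcen2
      refine ⟨h0', hx, fun l => ?_⟩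
      have : x1 l + a * u l - x1 l = a * u l := by ring
      rw [this, abs_mul, abs_of_pos ha]
      have := hu l
      nlinarith
    have c2 : cen (fun l => x1 l - b * v l) = cen x1 := by
      apply hcen2
      refine ⟨h2', hx, fun l => ?_⟩
      have : x1 l - b * v l - x1 l = - (b * v l) := by ring
      rw [this, abs_neg, abs_mul, abs_of_pos hb]
      have := hv l
      nlinarith
    simp only [if_pos h0', if_pos h2', if_pos hx]
    rw [c0, c2]
    set c := cen x1 with hc
    have hcb : ∀ l, |x1 l - c l| ≤ D := hcen1 x1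
    rw [← Finset.sum_sub_distrib, ← Finset.sum_sub_distrib, Finset.sum_div, Finset.sum_div,
      ← Finset.sum_add_distrib, ← Finset.sum_sub_distrib]
    refine (Finset.abs_sum_le_sum_abs _ _).trans ?_
    have hterm : ∀ l ∈ (univ : Finset (Fin n)),
        |((x1 l + a * u l - c l) ^ 2 - (x1 l - c l) ^ 2) / a
          + ((x1 l - b * v l - c l) ^ 2 - (x1 l - c l) ^ 2) / b - (a * u l ^ 2 + b * v l ^ 2)|
        ≤ 2 * (D * κ) := by
      intro l _
      have e : ((x1 l + a * u l - c l) ^ 2 - (x1 l - c l) ^ 2) / a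
          + ((x1 l - b * v l - c l) ^ 2 - (x1 l - c l) ^ 2) / b - (a * u l ^ 2 + b * v l ^ 2)
          = 2 * ((x1 l - c l) * (u l - v l)) := by
        field_simp
        ring
      rw [e, abs_mul, abs_mul, abs_of_pos (by norm_num : (0 : ℝ) < 2)]
      have h3 := mul_le_mul (hcb l) (hκ l) (abs_nonneg _) hD
      linarith
    refine (Finset.sum_le_sum hterm).trans ?_
    rw [Finset.sum_const, Finset.card_univ, Fintype.card_fin, nsmul_eq_mul]
    have h3 : 0 ≤ G * κ := by positivity
    have h4 : (G + 2 * (n * D)) * κ = G * κ + n * (2 * (D * κ)) := by ring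
    rw [h4]
    linarith
  · have h0' : (fun l => x1 l + a * u l) ∉ V := fun h => hx (h0.mp h)
    have h2' : (fun l => x1 l - b * v l) ∉ V := fun h => hx (h2.mp h)
    have e := hest x1 u v a b κ ha hb hab hu hv hκ h0' h2'
    simp only [if_neg h0', if_neg h2', if_neg hx]
    refine e.trans ?_
    rw [Finset.card_univ, Fintype.card_fin]
    have h3 : (n : ℝ) * (1 / (12 * (n + 1))) ≤ 1 / 12 := by
      rw [mul_one_div, div_le_div_iff₀ (by positivity) (by norm_num)]
      linarith
    have h4 : 0 ≤ 2 * (n * D) * κ := by positivity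
    have h5 : (G + 2 * (n * D)) * κ = G * κ + 2 * (n * D) * κ := by ring
    rw [h5]
    linarith

end H32Lab
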